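import Mathlib
import Pool.Agent.H522R2.Circuit
import Pool.Agent.U514.MM.Wire

/-!
# Programs of inner products with gates in the plane (definitions)
-/

set_option autoImplicit false

namespace Pool.Agent.U514.SP

open Finset

/-- An operand: a variable, a constant or the value of the item `d`. -/
inductive Opd (F V D : Type) : Type
  | var (v : V) : Opd F V D
  | const (c : F) : Opd F V D
  | ref (d : D) : Opd F V D

/-- The polynomial of an operand, if the item `d` has the polynomial `val d`. -/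
noncomputable def Opd.eval {F V D : Type} [Field F] (val : D → MvPolynomial V F) :
    Opd F V D → MvPolynomial V F
  | .var v => MvPolynomial.X v
  | .const c => MvPolynomial.C c
  | .ref d => val d

/-- The `ℓ¹` distance in the plane. -/
def dst (p q : ℤ × ℤ) : ℕ := (p.1 - q.1).natAbs + (p.2 - q.2).natAbs

/-- The length of the wire from an operand to the point `p`; leaves are free. -/
def Opd.len {F V D : Type} (pos : D → ℤ × ℤ) (p : ℤ × ℤ) : Opd F V D → ℕ
  | .var _ => 0
  | .const _ => 0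
  | .ref d => dst (pos d) p

/-! ### Nets of gates -/

/-- A net of gates in the plane; the gate `g` has the inputs `fst g`, `snd g`, it multiplies if
`mul g` and adds otherwise, it computes the polynomial `pol g` and is at the point `pos g`. -/
structure Net (F V : Type) [Field F] where
  G : Type
  inst : Fintype G
  mul : G → Bool
  fst : G → Opd F V G
  snd : G → Opd F V G
  rank : G → ℕ
  pol : G → MvPolynomial V F
  pos : G → ℤ × ℤ

/-- The conditions on a net. -/
structure Net.OK {F V : Type} [Field F] (P : Net F V) : Prop where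
  fst_rank : ∀ g h, P.fst g = .ref h → P.rank h < P.rank g
  snd_rank : ∀ g h, P.snd g = .ref h → P.rank h < P.rank g
  mul_eq : ∀ g, P.mul g = true → P.pol g = (P.fst g).eval P.pol * (P.snd g).eval P.pol
  add_eq : ∀ g, P.mul g = false → P.pol g = (P.fst g).eval P.pol + (P.snd g).eval P.pol
  inj : Function.Injective P.pos

/-- The cost of a net: gates plus length of the wires between gates. -/
def Net.cost {F V : Type} [Field F] (P : Net F V) : ℕ :=
  letI := P.inst
  ∑ g, (1 + (P.fst g).len P.pos (P.pos g) + (P.snd g).len P.pos (P.pos g))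

/-! ### Programs of inner products -/

/-- A program of inner products: the item `d` is the sum over `e < len d` of the products of the
operands `fst d e`, `snd d e`; the product gate of the term `e` is at `pos d e false`, the gate which
adds it to the sum of the previous terms (to `0` for `e = 0`) is at `pos d e true`. -/
structure Dots (F V : Type) [Field F] where
  D : Type
  inst : Fintype D
  len : D → ℕ
  fst : D → ℕ → Opd F V D
  snd : D → ℕ → Opd F V D
  rank : D → ℕ
  val : D → MvPolynomial V F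
  pos : D → ℕ → Bool → ℤ × ℤ

/-- The point of the last gate of an item, which has its value. -/
def Dots.last {F V : Type} [Field F] (P : Dots F V) (d : P.D) : ℤ × ℤ :=
  P.pos d (P.len d - 1) true

/-- The conditions on a program. -/
structure Dots.OK {F V : Type} [Field F] (P : Dots F V) : Prop where
  len_pos : ∀ d, 0 < P.len d
  fst_rank : ∀ d e d', e < P.len d → P.fst d e = .ref d' → P.rank d' < P.rank d
  snd_rank : ∀ d e d', e < P.len d → P.snd d e = .ref d' → P.rank d' < P.rank d
  val_eq : ∀ d, P.val d = ∑ e ∈ range (P.len d),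
    (P.fst d e).eval P.val * (P.snd d e).eval P.val
  inj : ∀ d e b d' e' b', e < P.len d → e' < P.len d' → P.pos d e b = P.pos d' e' b' →
    d = d' ∧ e = e' ∧ b = b'

/-- The cost of an item. -/
def Dots.itemCost {F V : Type} [Field F] (P : Dots F V) (d : P.D) : ℕ :=
  ∑ e ∈ range (P.len d), (2 + dst (P.pos d e false) (P.pos d e true) +
    (P.fst d e).len P.last (P.pos d e false) + (P.snd d e).len P.last (P.pos d e false) +
    if e = 0 then 0 else dst (P.pos d (e - 1) true) (P.pos d e true))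

/-- The cost of a program. -/
def Dots.cost {F V : Type} [Field F] (P : Dots F V) : ℕ :=
  letI := P.inst
  ∑ d, P.itemCost d

/-! ### Bilinear algorithms -/

/-- `a, b, c` is a bilinear algorithm for the product of matrices with rows and columns indexed
by `X`, with the products `T`. -/
def IsAlg {F X T : Type} [Field F] [DecidableEq X] [Fintype T] (a b c : T → X → X → F) : Prop :=
  ∀ x z x1 y1 y2 z2 : X, ∑ τ, c τ x z * a τ x1 y1 * b τ y2 z2 =
    if x1 = x ∧ y1 = y2 ∧ z2 = z then 1 else 0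

open Classical in
/-- The number of nonzero entries of a matrix. -/
noncomputable def nnz {F X : Type} [Field F] [Fintype X] (f : X → X → F) : ℕ :=
  (univ.filter fun p : X × X => f p.1 p.2 ≠ 0).card

/-! ### The layout -/

/-- The parameters of the layout: an algorithm with index set `Fin nX` and products `Fin nT`, block
sizes `t τ`, and matrices with rows `Fin nX × Fin m × Fin s`, inner indices `Fin nX × Fin N` and
columns `Fin nX × Fin m × Fin s`, where `g = m * al`, `N = g * g` and `s = m * al * al`. -/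
structure Par (F V : Type) [Field F] where
  nX : ℕ
  nT : ℕ
  m : ℕ
  al : ℕ
  a : Fin nT → Fin nX → Fin nX → F
  b : Fin nT → Fin nX → Fin nX → F
  c : Fin nT → Fin nX → Fin nX → F
  t : Fin nT → ℕ
  entA : (Fin nX × Fin m × Fin (m * al * al)) → (Fin nX × Fin (m * al * (m * al))) → V ⊕ F
  entB : (Fin nX × Fin (m * al * (m * al))) → (Fin nX × Fin m × Fin (m * al * al)) → V ⊕ F

namespace Par

variable {F V : Type} [Field F] (p : Par F V)

abbrev g : ℕ := p.m * p.al
abbrev N : ℕ := p.m * p.al * (p.m * p.al)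
abbrev s : ℕ := p.m * p.al * p.al
/-- width of a column of layers -/
abbrev W : ℕ := 4 * p.m ^ 2

/-- The conditions on the parameters. -/
structure Good : Prop where
  nX_pos : 0 < p.nX
  nT_pos : 0 < p.nT
  m_pos : 0 < p.m
  m_le : p.m ≤ p.al
  t_pos : ∀ τ, 0 < p.t τ
  t_dvd : ∀ τ, p.t τ ∣ p.m
  alg : IsAlg p.a p.b p.c
  nnz_a : ∀ τ, nnz (p.a τ) ≤ p.t τ ^ 2
  nnz_b : ∀ τ, nnz (p.b τ) ≤ p.t τ ^ 2

/-- The items: `left`, `right`, `mid`, `out`. -/
abbrev Item : Type :=
  (Fin p.s × Fin p.s × (Σ τ : Fin p.nT, Fin p.m × Fin (p.m / p.t τ) × Fin p.N)) ⊕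
  (Fin p.s × Fin p.s × (Σ τ : Fin p.nT, Fin p.m × Fin (p.m / p.t τ) × Fin p.N)) ⊕
  (Fin p.s × Fin p.s × Fin p.nT × Fin p.m × Fin p.m) ⊕
  (Fin p.s × Fin p.s × (Fin p.nX × Fin p.m) × (Fin p.nX × Fin p.m))

/-- `left i3 k3 τ i J j`: the linear form number `τ` of the rows `i` at the inner index `j`, for the
blocks with column block `J`. -/
abbrev left (i3 k3 : Fin p.s) (τ : Fin p.nT) (i : Fin p.m) (J : Fin (p.m / p.t τ)) (j : Fin p.N) :
    p.Item := Sum.inl (i3, k3, ⟨τ, i, J, j⟩)

abbrev right (i3 k3 : Fin p.s) (τ : Fin p.nT) (k : Fin p.m) (I : Fin (p.m / p.t τ)) (j : Fin p.N) :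
    p.Item := Sum.inr (Sum.inl (i3, k3, ⟨τ, k, I, j⟩))

abbrev mid (i3 k3 : Fin p.s) (τ : Fin p.nT) (i k : Fin p.m) : p.Item :=
  Sum.inr (Sum.inr (Sum.inl (i3, k3, τ, i, k)))

abbrev out (i3 k3 : Fin p.s) (x : Fin p.nX) (i : Fin p.m) (z : Fin p.nX) (k : Fin p.m) : p.Item :=
  Sum.inr (Sum.inr (Sum.inr (i3, k3, (x, i), (z, k))))

/-- operand of an entry -/
def opd (e : V ⊕ F) : Opd F V p.Item :=
  match e with
  | .inl v => .var v
  | .inr c => .const c

/-- polynomial of an entry -/
noncomputable def ent (e : V ⊕ F) : MvPolynomial V F :=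
  match e with
  | .inl v => MvPolynomial.X v
  | .inr c => MvPolynomial.C c

open Classical in
/-- The list of the nonzero places of a matrix (`none` after its end). -/
noncomputable def place (f : Fin p.nX → Fin p.nX → F) (e : ℕ) : Option (Fin p.nX × Fin p.nX) :=
  if h : e < (univ.filter fun q : Fin p.nX × Fin p.nX => f q.1 q.2 ≠ 0).card then
    some ((univ.filter fun q : Fin p.nX × Fin p.nX => f q.1 q.2 ≠ 0).equivFin.symm ⟨e, h⟩).1
  else none

/-- Number of terms. -/
def len : p.Item → ℕ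
  | .inl (_, _, ⟨τ, _⟩) => p.t τ ^ 2
  | .inr (.inl (_, _, ⟨τ, _⟩)) => p.t τ ^ 2
  | .inr (.inr (.inl _)) => p.N
  | .inr (.inr (.inr _)) => p.nT

/-- First operands. -/
noncomputable def fst : p.Item → ℕ → Opd F V p.Item
  | .inl (_, _, ⟨τ, _⟩), e => ((p.place (p.a τ) e).elim (.const 0) fun q => .const (p.a τ q.1 q.2))
  | .inr (.inl (_, _, ⟨τ, _⟩)), e =>
      ((p.place (p.b τ) e).elim (.const 0) fun q => .const (p.b τ q.1 q.2))
  | .inr (.inr (.inl (i3, k3, τ, i, k))), e =>
      if h : e < p.N ∧ k.val / p.t τ < p.m / p.t τ then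
        .ref (p.left i3 k3 τ i ⟨k.val / p.t τ, h.2⟩ ⟨e, h.1⟩) else .const 0
  | .inr (.inr (.inr (_, _, (x, _), (z, _)))), e =>
      if h : e < p.nT then .const (p.c ⟨e, h⟩ x z) else .const 0

/-- Second operands. -/
noncomputable def snd : p.Item → ℕ → Opd F V p.Item
  | .inl (i3, _, ⟨τ, i, _, j⟩), e => ((p.place (p.a τ) e).elim (.const 0) fun q =>
      p.opd (p.entA (q.1, i, i3) (q.2, j)))
  | .inr (.inl (_, k3, ⟨τ, k, _, j⟩)), e => ((p.place (p.b τ) e).elim (.const 0) fun q =>
      p.opd (p.entB (q.1, j) (q.2, k, k3)))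
  | .inr (.inr (.inl (i3, k3, τ, i, k))), e =>
      if h : e < p.N ∧ i.val / p.t τ < p.m / p.t τ then
        .ref (p.right i3 k3 τ k ⟨i.val / p.t τ, h.2⟩ ⟨e, h.1⟩) else .const 0
  | .inr (.inr (.inr (i3, k3, (_, i), (_, k)))), e =>
      if h : e < p.nT then .ref (p.mid i3 k3 ⟨e, h⟩ i k) else .const 0

/-- Ranks. -/
def rank : p.Item → ℕ
  | .inl _ => 0
  | .inr (.inl _) => 0
  | .inr (.inr (.inl _)) => 1
  | .inr (.inr (.inr _)) => 2

noncomputable def valL (i3 : Fin p.s) (τ : Fin p.nT) (i : Fin p.m) (j : Fin p.N) :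
    MvPolynomial V F :=
  ∑ q : Fin p.nX × Fin p.nX, MvPolynomial.C (p.a τ q.1 q.2) * ent (p.entA (q.1, i, i3) (q.2, j))

noncomputable def valR (k3 : Fin p.s) (τ : Fin p.nT) (k : Fin p.m) (j : Fin p.N) :
    MvPolynomial V F :=
  ∑ q : Fin p.nX × Fin p.nX, MvPolynomial.C (p.b τ q.1 q.2) * ent (p.entB (q.1, j) (q.2, k, k3))

noncomputable def valM (i3 k3 : Fin p.s) (τ : Fin p.nT) (i k : Fin p.m) : MvPolynomial V F :=
  ∑ j : Fin p.N, p.valL i3 τ i j * p.valR k3 τ k j

/-- Values. -/
noncomputable def val : p.Item → MvPolynomial V F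
  | .inl (i3, _, ⟨τ, i, _, j⟩) => p.valL i3 τ i j
  | .inr (.inl (_, k3, ⟨τ, k, _, j⟩)) => p.valR k3 τ k j
  | .inr (.inr (.inl (i3, k3, τ, i, k))) => p.valM i3 k3 τ i k
  | .inr (.inr (.inr (i3, k3, (x, i), (z, k)))) =>
      ∑ τ : Fin p.nT, MvPolynomial.C (p.c τ x z) * p.valM i3 k3 τ i k

/-- Left end of the region of the superblock `(i3, k3)`. -/
def base (i3 k3 : ℕ) : ℕ := (i3 * p.s + k3) * (p.nT * p.m * p.m * p.g * p.W)

/-- Point number `(u, v)` of the layer `j` of the block `(I, J)` of the product `τ`, with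
`t = t τ`. -/
def pt (i3 k3 τ t I J j u v : ℕ) : ℤ × ℤ :=
  (((p.base i3 k3 + (((τ * p.m + I) * p.m + J) * p.g + j / p.g) * p.W + u : ℕ) : ℤ),
    ((j % p.g * (2 * t) + v : ℕ) : ℤ))

/-- Points of the gates. -/
def pos : p.Item → ℕ → Bool → ℤ × ℤ
  | .inl (i3, k3, ⟨τ, i, J, j⟩), e, b =>
      p.pt i3 k3 τ (p.t τ) (i / p.t τ) J j (2 * e + b.toNat) (i % p.t τ)
  | .inr (.inl (i3, k3, ⟨τ, k, I, j⟩)), e, b =>
      p.pt i3 k3 τ (p.t τ) I (k / p.t τ) j (2 * e + b.toNat) (p.t τ + k % p.t τ)
  | .inr (.inr (.inl (i3, k3, τ, i, k))), e, b =>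
      p.pt i3 k3 τ (p.t τ) (i / p.t τ) (k / p.t τ) e (2 * p.t τ ^ 2 + 2 * (k % p.t τ) + b.toNat)
        (i % p.t τ)
  | .inr (.inr (.inr (i3, k3, (x, i), (z, k)))), e, b =>
      (((p.base i3 k3 : ℕ) : ℤ), ((2 * p.g * p.m +
        (((((x : ℕ) * p.m + i) * p.nX + z) * p.m + k) * p.nT + e) * 2 + b.toNat : ℕ) : ℤ))

/-- The program of the layout. -/
noncomputable def prog : Dots F V where
  D := p.Item
  inst := inferInstance
  len := p.len
  fst := p.fst
  snd := p.snd
  rank := p.rank
  val := p.val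
  pos := p.pos

end Par

end Pool.Agent.U514.SP
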