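import Mathlib
import Pool.Agent.U514.SP.Defs
import Pool.Agent.U514.MM.Space

/-!
# Project SP: statements of the packages
-/

set_option autoImplicit false

namespace Pool.Agent.U514.SP

open Finset
open Pool.Agent.H522R2 Pool.Agent.H522R2.Circuit Pool.Agent.H522R3.TW
open Pool.Agent.U514.MM

/-- NET: every net of gates in the plane is a circuit with gates in `ℤ ^ d`, `d ≥ 2`. -/
def S_NET : Prop :=
  ∀ (F V : Type) [Field F] (P : Net F V), P.OK → ∀ d : ℕ, 2 ≤ d →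
    ∃ (C : Circuit F V) (pos : {k : Fin C.nodes // IsGate C k} → Fin d → ℤ),
      Function.Injective pos ∧ (∀ g, ∃ k, C.poly k = P.pol g) ∧
      C.size + wireLength C pos ≤ P.cost

/-- DOTS: every program of inner products is a net. -/
def S_DOTS : Prop :=
  ∀ (F V : Type) [Field F] (P : Dots F V), P.OK →
    ∃ Q : Net F V, Q.OK ∧ (∀ d, ∃ g, Q.pol g = P.val d) ∧ Q.cost ≤ P.cost

/-- INJ: the gates of the layout are at different points. -/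
def S_INJ : Prop :=
  ∀ (F V : Type) [Field F] (p : Par F V), p.Good →
    ∀ (d : p.Item) (e : ℕ) (b : Bool) (d' : p.Item) (e' : ℕ) (b' : Bool),
      e < p.len d → e' < p.len d' → p.pos d e b = p.pos d' e' b' → d = d' ∧ e = e' ∧ b = b'

/-- VAL: the values of the layout are the right sums. -/
def S_VAL : Prop :=
  ∀ (F V : Type) [Field F] (p : Par F V), p.Good → ∀ d : p.Item,
    p.val d = ∑ e ∈ range (p.len d), (p.fst d e).eval p.val * (p.snd d e).eval p.val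

/-- OUT: the last items are the entries of the product. -/
def S_OUT : Prop :=
  ∀ (F V : Type) [Field F] (p : Par F V), p.Good →
    ∀ (i3 k3 : Fin p.s) (x : Fin p.nX) (i : Fin p.m) (z : Fin p.nX) (k : Fin p.m),
      p.val (p.out i3 k3 x i z k) = ∑ y : Fin p.nX, ∑ j : Fin p.N,
        Par.ent (p.entA (x, i, i3) (y, j)) * Par.ent (p.entB (y, j) (z, k, k3))

/-- ITEM: costs of the single items. -/
def S_ITEM : Prop :=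
  ∀ (F V : Type) [Field F] (p : Par F V), p.Good → ∀ i3 k3 : Fin p.s,
    (∀ τ i J j, p.prog.itemCost (p.left i3 k3 τ i J j) ≤ 5 * p.t τ ^ 2) ∧
    (∀ τ k I j, p.prog.itemCost (p.right i3 k3 τ k I j) ≤ 5 * p.t τ ^ 2) ∧
    (∀ τ i k, p.prog.itemCost (p.mid i3 k3 τ i k) ≤ 20 * p.N * p.t τ) ∧
    (∀ x i z k, p.prog.itemCost (p.out i3 k3 x i z k) ≤ 20 * p.g * p.nX ^ 2 * p.nT ^ 2 * p.m ^ 4)

/-- COST: cost of the layout. -/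
def S_COST : Prop :=
  ∀ (F V : Type) [Field F] (p : Par F V), p.Good →
    p.prog.cost ≤ 30 * (p.s ^ 2 * p.m ^ 2 * p.N * ∑ τ, p.t τ) +
      20 * (p.s ^ 2 * p.g * p.nX ^ 4 * p.nT ^ 2 * p.m ^ 6)

abbrev X₀ : Type := Fin 2 × Fin 128

abbrev T₀ : Type := (Fin 2 × Fin 2) × ((Fin 128 × Fin 128 × Fin 128) ⊕ (Fin 128 × Fin 128) ⊕
  (Fin 128 × Fin 128) ⊕ (Fin 128 × Fin 128))

/-- BASE: trilinear aggregation. -/
def S_BASE : Prop :=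
  ∀ (F : Type) [Field F], ∃ (a b c : T₀ → X₀ → X₀ → F) (w : T₀ → ℝ), IsAlg a b c ∧
    (∀ τ, (nnz (a τ) : ℝ) ≤ w τ ^ 2) ∧ (∀ τ, (nnz (b τ) : ℝ) ≤ w τ ^ 2) ∧
    (∀ τ, 1 ≤ w τ ∧ w τ ≤ 16) ∧ ∑ τ, w τ < 256 ^ 3

/-- POW: powers of an algorithm. -/
def S_POW : Prop :=
  ∀ (F X T : Type) [Field F] [Fintype X] [DecidableEq X] [Fintype T] (a b c : T → X → X → F)
    (w : T → ℝ), IsAlg a b c → (∀ τ, (nnz (a τ) : ℝ) ≤ w τ ^ 2) →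
    (∀ τ, (nnz (b τ) : ℝ) ≤ w τ ^ 2) → (∀ τ, 1 ≤ w τ ∧ w τ ≤ 16) → ∀ l : ℕ,
    ∃ (a' b' c' : Fin (Fintype.card T ^ l) → Fin (Fintype.card X ^ l) →
        Fin (Fintype.card X ^ l) → F) (t : Fin (Fintype.card T ^ l) → ℕ),
      IsAlg a' b' c' ∧ (∀ τ, 0 < t τ) ∧ (∀ τ, t τ ∣ 16 ^ l) ∧
      (∀ τ, nnz (a' τ) ≤ t τ ^ 2) ∧ (∀ τ, nnz (b' τ) ≤ t τ ^ 2) ∧
      ∑ τ, (t τ : ℝ) ≤ 2 * (∑ τ, w τ) ^ l

/-- ASY: the exponent. -/
def S_ASY : Prop :=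
  ∀ (cost : ℕ → ℕ) (Q : ℕ) (σ A B : ℝ), 1 ≤ Q → 0 < σ → σ < (Q : ℝ) ^ 3 → 0 ≤ A → 1 ≤ B →
    cost 0 = 0 →
    (∀ l al n : ℕ, 16 ^ l ≤ al → n ≤ Q ^ l * (16 ^ l * al) ^ 2 →
      (cost n : ℝ) ≤ A * ((16 : ℝ) ^ l * al) ^ 6 * σ ^ l + A * ((16 : ℝ) ^ l * al) ^ 5 * B ^ l) →
    ∃ η : ℝ, 0 < η ∧ ∃ D : ℝ, ∀ n : ℕ, (cost n : ℝ) ≤ D * (n : ℝ) ^ (3 - η)

end Pool.Agent.U514.SP
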