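import Mathlib
import Pool.Agent.U514.SP.Stm

/-!
# Project SP: from the layout to matrix multiplication
-/

set_option autoImplicit false

namespace Pool.Agent.U514.SP

open Finset
open Pool.Agent.H522R2 Pool.Agent.H522R2.Circuit Pool.Agent.H522R3.TW
open Pool.Agent.U514.MM

theorem prog_ok (hI : S_INJ) (hV : S_VAL) {F V : Type} [Field F] (p : Par F V) (hp : p.Good) :
    p.prog.OK where
  len_pos := by
    have ha : 0 < p.al := hp.m_pos.trans_le hp.m_le
    rintro (⟨i3, k3, τ, i, J, j⟩ | ⟨i3, k3, τ, i, J, j⟩ | ⟨i3, k3, τ, i, k⟩ | ⟨i3, k3, x, z⟩)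
    · exact pow_pos (hp.t_pos τ) 2
    · exact pow_pos (hp.t_pos τ) 2
    · exact Nat.mul_pos (Nat.mul_pos hp.m_pos ha) (Nat.mul_pos hp.m_pos ha)
    · exact hp.nT_pos
  fst_rank := by
    rintro (⟨i3, k3, τ, i, J, j⟩ | ⟨i3, k3, τ, i, J, j⟩ | ⟨i3, k3, τ, i, k⟩ | ⟨i3, k3, x, z⟩) e d' he h
    · exfalso
      change (p.place (p.a τ) e).elim (Opd.const 0) (fun q => Opd.const (p.a τ q.1 q.2)) = _ at h
      cases hq : p.place (p.a τ) e <;> rw [hq] at h <;> simp at h
    · exfalso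
      change (p.place (p.b τ) e).elim (Opd.const 0) (fun q => Opd.const (p.b τ q.1 q.2)) = _ at h
      cases hq : p.place (p.b τ) e <;> rw [hq] at h <;> simp at h
    · change (if h : e < p.N ∧ k.val / p.t τ < p.m / p.t τ then
        Opd.ref (p.left i3 k3 τ i ⟨k.val / p.t τ, h.2⟩ ⟨e, h.1⟩) else Opd.const 0) = _ at h
      split_ifs at h with h1
      injection h with h
      rw [← h]
      exact Nat.zero_lt_one
    · exfalso
      obtain ⟨x, i⟩ := x
      obtain ⟨z, k⟩ := z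
      change (if h : e < p.nT then Opd.const (p.c ⟨e, h⟩ x z) else Opd.const 0) = _ at h
      split_ifs at h
  snd_rank := by
    rintro (⟨i3, k3, τ, i, J, j⟩ | ⟨i3, k3, τ, i, J, j⟩ | ⟨i3, k3, τ, i, k⟩ | ⟨i3, k3, x, z⟩) e d' he h
    · exfalso
      change (p.place (p.a τ) e).elim (Opd.const 0) (fun q =>
        p.opd (p.entA (q.1, i, i3) (q.2, j))) = _ at h
      cases hq : p.place (p.a τ) e with
      | none => rw [hq] at h; simp at h
      | some q =>
        rw [hq] at h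
        simp only [Option.elim_some] at h
        cases he' : p.entA (q.1, i, i3) (q.2, j) <;> rw [he'] at h <;> simp [Par.opd] at h
    · exfalso
      change (p.place (p.b τ) e).elim (Opd.const 0) (fun q =>
        p.opd (p.entB (q.1, j) (q.2, i, k3))) = _ at h
      cases hq : p.place (p.b τ) e with
      | none => rw [hq] at h; simp at h
      | some q =>
        rw [hq] at h
        simp only [Option.elim_some] at h
        cases he' : p.entB (q.1, j) (q.2, i, k3) <;> rw [he'] at h <;> simp [Par.opd] at h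
    · change (if h : e < p.N ∧ i.val / p.t τ < p.m / p.t τ then
        Opd.ref (p.right i3 k3 τ k ⟨i.val / p.t τ, h.2⟩ ⟨e, h.1⟩) else Opd.const 0) = _ at h
      split_ifs at h with h1
      injection h with h
      rw [← h]
      exact Nat.zero_lt_one
    · obtain ⟨x, i⟩ := x
      obtain ⟨z, k⟩ := z
      change (if h : e < p.nT then Opd.ref (p.mid i3 k3 ⟨e, h⟩ i k) else Opd.const 0) = _ at h
      split_ifs at h with h1
      injection h with h
      rw [← h]
      exact Nat.one_lt_two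
  val_eq := hV F V p hp
  inj := hI F V p hp

/-- Row index of a padded matrix. -/
def row (nX m s : ℕ) (x : Fin nX × Fin m × Fin s) : ℕ := (x.1 * m + x.2.1) * s + x.2.2

/-- Inner index of a padded matrix. -/
def inn (nX N : ℕ) (y : Fin nX × Fin N) : ℕ := y.1 * N + y.2

lemma exists_row {nX m s n : ℕ} (h : n < nX * m * s) :
    ∃ x : Fin nX × Fin m × Fin s, row nX m s x = n := by
  have hs : 0 < s := Nat.pos_of_ne_zero fun h0 => by simp [h0] at h
  have hm : 0 < m := Nat.pos_of_ne_zero fun h0 => by simp [h0] at h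
  have h1 : n / s < nX * m := by
    rw [Nat.div_lt_iff_lt_mul hs]; exact h
  have h2 : n / s / m < nX := by
    rw [Nat.div_lt_iff_lt_mul hm]; exact h1
  refine ⟨(⟨n / s / m, h2⟩, ⟨n / s % m, Nat.mod_lt _ hm⟩, ⟨n % s, Nat.mod_lt _ hs⟩), ?_⟩
  unfold row
  simp only
  rw [Nat.div_add_mod' , Nat.div_add_mod']

lemma inn_lt {nX N : ℕ} (y : Fin nX × Fin N) : inn nX N y < nX * N := by
  unfold inn
  have h1 := y.1.2
  have h2 := y.2.2
  calc (y.1 : ℕ) * N + y.2 < (y.1 : ℕ) * N + N := by omega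
    _ = (y.1 + 1) * N := by ring
    _ ≤ nX * N := Nat.mul_le_mul_right _ h1

/-- Sums over the inner index. -/
lemma sum_inn {M : Type} [AddCommMonoid M] (nX N n : ℕ) (hn : n ≤ nX * N) (f : ℕ → M)
    (hf : ∀ i, n ≤ i → f i = 0) :
    ∑ y : Fin nX, ∑ j : Fin N, f (inn nX N (y, j)) = ∑ l : Fin n, f l := by
  have h1 : ∑ y : Fin nX, ∑ j : Fin N, f (inn nX N (y, j)) = ∑ l : Fin (nX * N), f l := by
    rw [← Finset.sum_product', ← (finProdFinEquiv (m := nX) (n := N)).sum_comp]
    refine sum_congr rfl fun y _ => ?_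
    congr 1
    simp only [inn, finProdFinEquiv, Equiv.coe_fn_mk]
    ring
  rw [h1, ← sum_range (fun l => f l), ← sum_range (fun l => f l)]
  refine (sum_subset (range_subset_range.2 hn) fun x _ hx => hf x ?_).symm
  simpa using hx

/-- The parameters for two `n × n` matrices. -/
noncomputable def mkPar {F : Type} [Field F] (nX nT m al : ℕ) (a b c : Fin nT → Fin nX → Fin nX → F)
    (t : Fin nT → ℕ) (n : ℕ) : Par F (Vars n) where
  nX := nX
  nT := nT
  m := m
  al := al
  a := a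
  b := b
  c := c
  t := t
  entA := fun x y => if h : row nX m (m * al * al) x < n ∧ inn nX (m * al * (m * al)) y < n then
    Sum.inl (Sum.inl (⟨_, h.1⟩, ⟨_, h.2⟩)) else Sum.inr 0
  entB := fun y x => if h : inn nX (m * al * (m * al)) y < n ∧ row nX m (m * al * al) x < n then
    Sum.inl (Sum.inr (⟨_, h.1⟩, ⟨_, h.2⟩)) else Sum.inr 0

/-- **Padding**: the cost of the product of two `n × n` matrices. -/
theorem pad (hN : S_NET) (hD : S_DOTS) (hI : S_INJ) (hV : S_VAL) (hO : S_OUT) (hC : S_COST)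
    (F : Type) [Field F] (d : ℕ) (hd : 2 ≤ d) (nX nT m al : ℕ)
    (a b c : Fin nT → Fin nX → Fin nX → F) (t : Fin nT → ℕ) (hnX : 0 < nX) (hnT : 0 < nT)
    (hm : 0 < m) (hal : m ≤ al) (ht : ∀ τ, 0 < t τ) (htm : ∀ τ, t τ ∣ m) (halg : IsAlg a b c)
    (hna : ∀ τ, nnz (a τ) ≤ t τ ^ 2) (hnb : ∀ τ, nnz (b τ) ≤ t τ ^ 2) (n : ℕ)
    (hn : n ≤ nX * (m * al * (m * al))) :
    costMM F d n ≤ 30 * ((m * al * al) ^ 2 * m ^ 2 * (m * al * (m * al)) * ∑ τ, t τ) +
      20 * ((m * al * al) ^ 2 * (m * al) * nX ^ 4 * nT ^ 2 * m ^ 6) := by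
  let p : Par F (Vars n) := mkPar nX nT m al a b c t n
  have hp : p.Good := ⟨hnX, hnT, hm, hal, ht, htm, halg, hna, hnb⟩
  have hok := prog_ok hI hV p hp
  obtain ⟨Q, hQ, hQ1, hQ2⟩ := hD F (Vars n) p.prog hok
  obtain ⟨C, pos, h1, h2, h3⟩ := hN F (Vars n) Q hQ d hd
  have hcost := hC F (Vars n) p hp
  refine (?_ : costMM F d n ≤ C.size + wireLength C pos).trans (h3.trans (hQ2.trans hcost))
  refine Nat.sInf_le ⟨C, pos, ?_, h1, rfl⟩
  intro i k
  have hsN : nX * m * (m * al * al) = nX * (m * al * (m * al)) := by ring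
  obtain ⟨⟨x, i', i3⟩, hx⟩ := exists_row (nX := nX) (m := m) (s := m * al * al) (n := i.val)
    (by rw [hsN]; exact i.2.trans_le hn)
  obtain ⟨⟨z, k', k3⟩, hz⟩ := exists_row (nX := nX) (m := m) (s := m * al * al) (n := k.val)
    (by rw [hsN]; exact k.2.trans_le hn)
  obtain ⟨g, hg⟩ := hQ1 (p.out i3 k3 x i' z k')
  obtain ⟨q, hq⟩ := h2 g
  refine ⟨q, ?_⟩
  rw [hq, hg]
  change p.val (p.out i3 k3 x i' z k') = _
  rw [hO F (Vars n) p hp]
  have e1 : ∀ (y : Fin nX) (j : Fin (m * al * (m * al))),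
      Par.ent (p.entA (x, i', i3) (y, j)) * Par.ent (p.entB (y, j) (z, k', k3)) =
      (fun l : ℕ => if h : l < n then MvPolynomial.X (R := F) (Sum.inl (i, ⟨l, h⟩) : Vars n) *
        MvPolynomial.X (Sum.inr (⟨l, h⟩, k)) else 0) (inn nX (m * al * (m * al)) (y, j)) := by
    intro y j
    have eA : p.entA (x, i', i3) (y, j) = (if h : row nX m (m * al * al) (x, i', i3) < n ∧
        inn nX (m * al * (m * al)) (y, j) < n then
        Sum.inl (Sum.inl (⟨_, h.1⟩, ⟨_, h.2⟩)) else Sum.inr 0 : Vars n ⊕ F) := rfl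
    have eB : p.entB (y, j) (z, k', k3) = (if h : inn nX (m * al * (m * al)) (y, j) < n ∧
        row nX m (m * al * al) (z, k', k3) < n then
        Sum.inl (Sum.inr (⟨_, h.1⟩, ⟨_, h.2⟩)) else Sum.inr 0 : Vars n ⊕ F) := rfl
    rw [eA, eB]
    simp only
    by_cases h : inn nX (m * al * (m * al)) (y, j) < n
    · have g1 : row nX m (m * al * al) (x, i', i3) < n := by rw [hx]; exact i.2
      have g2 : row nX m (m * al * al) (z, k', k3) < n := by rw [hz]; exact k.2
      have f1 : (⟨row nX m (m * al * al) (x, i', i3), g1⟩ : Fin n) = i := Fin.ext hx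
      have f2 : (⟨row nX m (m * al * al) (z, k', k3), g2⟩ : Fin n) = k := Fin.ext hz
      rw [dif_pos h, dif_pos ⟨g1, h⟩, dif_pos ⟨h, g2⟩, f1, f2]
      rfl
    · rw [dif_neg h, dif_neg fun h' => h h'.2, dif_neg fun h' => h h'.1]
      simp [Par.ent]
  have e2 := sum_inn nX (m * al * (m * al)) n hn
    (fun l : ℕ => if h : l < n then MvPolynomial.X (R := F) (Sum.inl (i, ⟨l, h⟩) : Vars n) *
        MvPolynomial.X (Sum.inr (⟨l, h⟩, k)) else 0) (fun l hl => dif_neg (by omega))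
  unfold entry
  refine Eq.trans (sum_congr rfl fun y _ => sum_congr rfl fun j _ => e1 y j) (e2.trans ?_)
  refine sum_congr rfl fun l _ => ?_
  rw [dif_pos l.2]

end Pool.Agent.U514.SP
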